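import Pool.Agent.N683.H2.Par2

/-!
# The parity conjecture for semistable elliptic curves: equivalence with the case of large rank

`K` is a number field, `E` a semistable elliptic curve over `K` with `j(E) ≠ 0, 1728`, `L` a finite Galois
extension of `K`, for example `L = K(E[N])`, `S` a finite set of primes of `K` and `R` a natural number.

The proof.  Let `U` be a group of automorphisms of the algebraic closure over `K` such that all finite
images of `U` are `2`-hyperelementary.  Then `E` has infinite rank over the fixed field `F` of `U`
(`Pool.Agent.N683.H2`): the three points of `E : y² = f(x)` on a line `y = t x + n` over `F` are permuted by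
`U`; if none is fixed the image in the symmetric group is transitive, and then the field of the square
root of the discriminant `D(t, n)` of `f(x) - (t x + n)²` is unique.  On a rational curve
`n = N(t)/W(t)`, constructed over a field with a fixed abscissa of a 3-torsion point or with a fixed
factorisation of the 3-division polynomial into two quadratic polynomials, `D` is `α t² + β` up to
squares, and the values of this form lie in two different classes modulo squares, or `F` is
pythagorean; so on one of two explicit families every line contains a point of `E(F)`, which is chosen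
`𝔭`-adically so that no multiple is defined over a given finite extension.  By compactness the rank is at
least `R` over the fixed fields of all `2`-hyperelementary subgroups of the Galois group of a suitable
finite extension.  Brauer induction with denominators prime to `2` gives a relation `∑ e_j [F_j] = m [K]`
with an odd integer `m` between the permutation characters of such fields.  It is combined with the
relations with local conditions and with the relations for the ranks, the numbers of archimedean places
and of split multiplicative primes of `Pool.Agent.N19.BR`.

The definitions are in `Pool.Agent.N19.BR.PDefs`, `FDefs` and `Defs`; a `Pool.Agent.R433.MD.Ext K` is a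
number field with the structure of a `K`-algebra.
-/

set_option autoImplicit false

namespace Pool.Agent.Results.MP_02f36d_nt.LargeRankParity

open NumberField IsDedekindDomain
open Pool.Agent.R433.MD (Ext)
open Pool.Agent.N19.BR.FDef
open scoped Classical

/-- The rank of the elliptic curve `E` over `K` over the extension `F = Z.F` of `K` is at least `R`. -/
def RankAtLeast {K : Type} [Field K] [NumberField K] (R : ℕ) (E : WeierstrassCurve K) (Z : Ext K) :
    Prop :=
  (R : Cardinal) ≤ Module.rank ℤ (E.map (algebraMap K Z.F)).toAffine.Point

/-- **Parity and elliptic curves of large rank.**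

(1) Let `E` be a semistable elliptic curve over a number field `K` with `j(E) ≠ 0, 1728`, `L/K` a finite
Galois extension, `S` a finite set of primes of `K`, `n` an odd positive integer and `R` a natural number.
There is a finite list of number fields `F_j ⊇ K` such that
* `E(F_j)` has rank at least `R`;
* the Galois groups of `L F_j / F_j` are `2`-hyperelementary, and `n` divides the local degrees of all
  `F_j / K` at the primes above `S`;
* for a set `J` of indices `(-1)^{rk E(K)} w(E / K) = ∏_{j ∈ J} (-1)^{rk E(F_j)} w(E / F_j)`; in
  particular, if the parity conjecture holds for `E` over all `F_j`, then it holds for `E` over `K`.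

(2) For every natural number `R`: the parity conjecture holds for all semistable elliptic curves over all
number fields if and only if it holds for those of rank at least `R` and for those with `j = 0` or
`j = 1728`. -/
theorem result :
    (∀ (K : Type) [Field K] [NumberField K] (E : WeierstrassCurve K) [E.IsElliptic],
      Semistable E → E.j ≠ 0 → E.j ≠ 1728 → ∀ (L : Type) [Field L] [NumberField L] [Algebra K L]
      [IsGalois K L] (S : Set (HeightOneSpectrum (𝓞 K))), S.Finite → ∀ n : ℕ, Odd n →
      ∀ R : ℕ, ∃ (N : ℕ) (Z : Fin N → Ext K) (J : Finset (Fin N)),
        (∀ j, RankAtLeast R E (Z j) ∧ TwoClass L S n (Z j)) ∧ ParityFormula E Z J ∧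
          ((∀ j, Parity (E.map (algebraMap K (Z j).F))) → Parity E)) ∧
    ∀ R : ℕ,
      (∀ (K : Type) [Field K] [NumberField K] (E : WeierstrassCurve K) [E.IsElliptic],
        Semistable E → Parity E) ↔
      ∀ (K : Type) [Field K] [NumberField K] (E : WeierstrassCurve K) [E.IsElliptic],
        Semistable E →
        ((R : Cardinal) ≤ Module.rank ℤ E.toAffine.Point ∨ E.j = 0 ∨ E.j = 1728) →
        Parity E := by
  have main : ∀ (K : Type) [Field K] [NumberField K] (E : WeierstrassCurve K) [E.IsElliptic],
      Semistable E → E.j ≠ 0 → E.j ≠ 1728 → ∀ (L : Type) [Field L] [NumberField L] [Algebra K L]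
      [IsGalois K L] (S : Set (HeightOneSpectrum (𝓞 K))), S.Finite → ∀ n : ℕ, Odd n →
      ∀ R : ℕ, ∃ (N : ℕ) (Z : Fin N → Ext K) (J : Finset (Fin N)),
        (∀ j, RankAtLeast R E (Z j) ∧ TwoClass L S n (Z j)) ∧ ParityFormula E Z J ∧
          ((∀ j, Parity (E.map (algebraMap K (Z j).F))) → Parity E) := by
    intro K _ _ E hE hs h0 h1728 L _ _ _ _ S hS n hn R
    obtain ⟨N, Z, e, m, hm, hrel, hZ⟩ :=
      Pool.Agent.N683.H2.list_two2 E hE h0 h1728 L hS hn R
    have h := Pool.Agent.N19.BR.parity_ranks hm hrel hE hs
    exact ⟨N, Z, Finset.univ.filter fun i => Odd (e i), fun j => ⟨(hZ j).2, (hZ j).1⟩, h,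
      Pool.Agent.N19.BR.parity_of_formula h hE⟩
  refine ⟨main, fun R => ⟨fun h K _ _ E _ hs _ => h K E hs, fun h K _ _ E _ hs => ?_⟩⟩
  by_cases h0 : E.j = 0
  · exact h K E hs (Or.inr (Or.inl h0))
  by_cases h1 : E.j = 1728
  · exact h K E hs (Or.inr (Or.inr h1))
  obtain ⟨N, Z, J, hZ, -, h2⟩ := main K E hs h0 h1 K ∅ Set.finite_empty 1 odd_one R
  exact h2 fun j => h (Z j).F _ (Pool.Agent.N683.H2.semistable_map hs (Z j).F) (Or.inl (hZ j).1)

end Pool.Agent.Results.MP_02f36d_nt.LargeRankParity
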