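import Pool.Agent.N922.PX.Final
import Pool.Agent.N922.PX.Ex

/-!
# The parity conjecture over a Galois 2-extension `F / ℚ` holds for a positive proportion of all
# elliptic curves over `ℚ`

Let `F / ℚ` be ANY Galois extension of degree `2 ^ n`, `n ≥ 1`, in which the prime `2` is unramified and
not inert (the Galois group and the ramification at the odd primes are arbitrary; an unramified prime can
only be inert if the Galois group is cyclic).

Theorem. Among ALL elliptic curves `E / ℚ`, ordered by height, a positive proportion satisfies the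
parity conjecture over `F`, unconditionally: `(-1) ^ rk E(F) = w(E / F)`. More precisely `E(F) = 0` and
`w(E / F) = 1`.

The local root numbers `w(E / F_v)` are signs; they are `1` if `E` has good reduction at `v` and `-1` if
`E` has split multiplicative reduction at `v`; and since `E` is defined over `ℚ` they are the same for
conjugate primes, for which the completions are isomorphic. These properties are all that we use, that
is, we prove the equality for every function `w` with these properties, in particular for the local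
root numbers defined by the local constants.

The proof. (1) `E(F) = 0`: this is our theorem for MP_775b3b_nt, which proves `Sel_2(E / F) = 0` for a
positive proportion of all `E / ℚ`; these curves are twists by `D` of the curves
`y ^ 2 = x ^ 3 + a x + b`, with `a`, `b` odd, `4 a ^ 3 + 27 b ^ 2 > 0` squarefree, `x ^ 3 + a x + b` is
irreducible modulo `2`, `3` and the primes which ramify in `F`, and all prime divisors of `D` split
completely in `F`. (2) In the product of the local root numbers only the primes `v` matter which are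
stable under the Galois group, as the number of conjugates of all the others is even. Such a prime is
not over `2` and not over a prime divisor of `D`, and the curve has good reduction at the primes
over the ramified primes. Therefore `v` is over a prime divisor `q` of `N = 4 a ^ 3 + 27 b ^ 2`, which is
inert in `F`, the Galois group is cyclic, the reduction is multiplicative, and split because the
residue field contains the quadratic extension of `𝔽_q`. Hence the product is the product of the
symbols `(d / q)` over the prime divisors `q` of `N`, where `ℚ(√d)` is the quadratic subfield of `F`. As `- N`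
is a square modulo the prime divisors of `d` (the discriminant of an irreducible cubic polynomial over
a finite field is a square), this is the sign of `d` by the quadratic reciprocity law, which is
`(-1)` to the number of the infinite places.

Project PX (helper922). Parts by helpers 56, 216, 339, 348, 385, 433, 771, 854, 865, 878, 897; the
first part uses the projects PQ and PV, with parts by helpers 3, 7, 40, 42, 50, 61, 75, 137, 187, 227, 273,
279, 296, 301, 323, 362, 368, 400, 415, 426, 441, 456, 498, 559, 592, 607, 615, 630, 650, 655, 667, 692, 707,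
738, 747, 774, 803, 816, 849, 900, 907, 945, 951, 954, 966.
-/

set_option autoImplicit false
set_option linter.all false

namespace Pool.Agent.Results.MP_02f36d_nt.ParityOverTwoExtensions

open Filter NumberField IsDedekindDomain
open scoped Classical

/-- The equation `y ^ 2 = x ^ 3 + A x + B` with integers `A`, `B` defines an elliptic curve, and
there is no prime `p` with `p ^ 4 ∣ A` and `p ^ 6 ∣ B`. Every elliptic curve over `ℚ` is isomorphic to
exactly one of these. -/
structure IsMinimal (A B : ℤ) : Prop where
  elliptic : 4 * A ^ 3 + 27 * B ^ 2 ≠ 0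
  minimal : ∀ p : ℕ, p.Prime → ¬ ((p : ℤ) ^ 4 ∣ A ∧ (p : ℤ) ^ 6 ∣ B)

/-- The height. -/
def height (p : ℤ × ℤ) : ℤ := max (4 * |p.1| ^ 3) (27 * p.2 ^ 2)

/-- The set of all elliptic curves over `ℚ` of height at most `X`. -/
def Curves (X : ℕ) : Set (ℤ × ℤ) := {p | IsMinimal p.1 p.2 ∧ height p ≤ X}

/-- The curve `y ^ 2 = x ^ 3 + A x + B` over `ℚ`. -/
def curve (p : ℤ × ℤ) : WeierstrassCurve ℚ := ⟨0, 0, 0, (p.1 : ℚ), (p.2 : ℚ)⟩

section defs

variable {F : Type} [Field F] [NumberField F]

/-- The coefficients of the equation are integral at the prime `v`. -/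
structure IntegralAt (v : HeightOneSpectrum (𝓞 F)) (W : WeierstrassCurve F) : Prop where
  a₁ : v.valuation F W.a₁ ≤ 1
  a₂ : v.valuation F W.a₂ ≤ 1
  a₃ : v.valuation F W.a₃ ≤ 1
  a₄ : v.valuation F W.a₄ ≤ 1
  a₆ : v.valuation F W.a₆ ≤ 1

/-- Good reduction at `v`: there is a Weierstrass equation with coefficients integral at `v` whose
discriminant is a unit at `v`. -/
def GoodReduction (v : HeightOneSpectrum (𝓞 F)) (W : WeierstrassCurve F) : Prop :=
  ∃ C : WeierstrassCurve.VariableChange F, IntegralAt v (C • W) ∧ v.valuation F (C • W).Δ = 1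

/-- Split multiplicative reduction at `v`: there is a Weierstrass equation with coefficients
integral at `v` whose reduction has the singular point `(0, 0)` (`a₃`, `a₄`, `a₆` are zero modulo `v`),
which is a node (`b₂ = a₁ ^ 2 + 4 a₂` is a unit at `v`) with tangents `y = α x` defined over the residue
field (`α ^ 2 + a₁ α - a₂` is zero modulo `v`). -/
def SplitMultiplicative (v : HeightOneSpectrum (𝓞 F)) (W : WeierstrassCurve F) : Prop :=
  ∃ C : WeierstrassCurve.VariableChange F, IntegralAt v (C • W) ∧
    v.valuation F (C • W).a₃ < 1 ∧ v.valuation F (C • W).a₄ < 1 ∧ v.valuation F (C • W).a₆ < 1 ∧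
    v.valuation F (C • W).b₂ = 1 ∧
    ∃ α : F, v.valuation F α ≤ 1 ∧
      v.valuation F (α ^ 2 + (C • W).a₁ * α - (C • W).a₂) < 1

variable (F)

/-- The properties of the local root numbers `w(E / F_v)` at the primes `v` of `F`, for an elliptic
curve `E` over `ℚ`, which we use: they are signs, `1` for good reduction, `-1` for split multiplicative
reduction, and the same for conjugate primes. -/
structure LocalRootNumbers (E : WeierstrassCurve ℚ) (w : HeightOneSpectrum (𝓞 F) → ℤ) :
    Prop where
  sign : ∀ v, w v = 1 ∨ w v = -1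
  good : ∀ v, GoodReduction v (E.baseChange F) → w v = 1
  split : ∀ v, SplitMultiplicative v (E.baseChange F) → w v = -1
  conj : ∀ (σ : F ≃ₐ[ℚ] F) (v v' : HeightOneSpectrum (𝓞 F)),
    (∀ x : F, v'.valuation F x = v.valuation F (σ x)) → w v' = w v

/-- The global root number: the product of the local root numbers at all places; it is `-1` at
every infinite place. -/
noncomputable def rootNumber (w : HeightOneSpectrum (𝓞 F) → ℤ) : ℤ :=
  (-1) ^ Nat.card (InfinitePlace F) * ∏ᶠ v, w v

/-- The group `E(F)`. -/
def Pts (p : ℤ × ℤ) : Type := ((curve p).baseChange F).toAffine.Point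

noncomputable instance instPts (p : ℤ × ℤ) : AddCommGroup (Pts F p) :=
  (inferInstance : AddCommGroup ((curve p).baseChange F).toAffine.Point)

/-- The rank of `E(F)`. -/
noncomputable def rank (p : ℤ × ℤ) : ℕ := Module.finrank ℤ (Pts F p)

/-- The parity conjecture holds for `E` over `F`, with `E(F) = 0` and root number `1`: for every
system of local root numbers (such systems exist, and there are only finitely many primes with
`w v ≠ 1`) `(-1) ^ rank = w(E / F)`. -/
structure ParityHolds (p : ℤ × ℤ) : Prop where
  zero : Subsingleton (Pts F p)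
  exist : ∃ w, LocalRootNumbers F (curve p) w
  finite : ∀ w, LocalRootNumbers F (curve p) w → {v | w v ≠ 1}.Finite
  one : ∀ w, LocalRootNumbers F (curve p) w → rootNumber F w = 1
  parity : ∀ w, LocalRootNumbers F (curve p) w → (-1) ^ rank F p = rootNumber F w

end defs

section tr

variable {F : Type} [Field F] [NumberField F]

theorem int_iff (v : HeightOneSpectrum (𝓞 F)) (W : WeierstrassCurve F) :
    IntegralAt v W ↔ Pool.Agent.N922.PX.IntegralAt v W :=
  ⟨fun h => ⟨h.1, h.2, h.3, h.4, h.5⟩, fun h => ⟨h.1, h.2, h.3, h.4, h.5⟩⟩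

theorem good_iff (v : HeightOneSpectrum (𝓞 F)) (W : WeierstrassCurve F) :
    GoodReduction v W ↔ Pool.Agent.N922.PX.GoodReduction v W := by
  unfold GoodReduction Pool.Agent.N922.PX.GoodReduction
  simp only [int_iff]

theorem split_iff (v : HeightOneSpectrum (𝓞 F)) (W : WeierstrassCurve F) :
    SplitMultiplicative v W ↔ Pool.Agent.N922.PX.SplitMultiplicative v W := by
  unfold SplitMultiplicative Pool.Agent.N922.PX.SplitMultiplicative
  simp only [int_iff]

theorem local_iff (p : ℤ × ℤ) (w : HeightOneSpectrum (𝓞 F) → ℤ) :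
    LocalRootNumbers F (curve p) w ↔
      Pool.Agent.N922.PX.LocalRootNumbers F (Pool.Agent.N922.PX.curve p) w := by
  have e : curve p = Pool.Agent.N922.PX.curve p := rfl
  rw [e]
  constructor
  · rintro ⟨h1, h2, h3, h4⟩
    exact ⟨h1, fun v h => h2 v ((good_iff v _).2 h), fun v h => h3 v ((split_iff v _).2 h), h4⟩
  · rintro ⟨h1, h2, h3, h4⟩
    exact ⟨h1, fun v h => h2 v ((good_iff v _).1 h), fun v h => h3 v ((split_iff v _).1 h), h4⟩

end tr

theorem crv_iff (X : ℕ) (p : ℤ × ℤ) : Pool.Agent.N922.PQ.Crv X p.1 p.2 ↔ p ∈ Curves X := by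
  constructor
  · rintro ⟨h1, h2, h3, h4⟩
    exact ⟨⟨h1, h2⟩, max_le h3 h4⟩
  · rintro ⟨⟨h1, h2⟩, h3⟩
    exact ⟨h1, h2, (le_max_left _ _).trans h3, (le_max_right _ _).trans h3⟩

theorem nonempty {X : ℕ} (hX : 27 ≤ X) : ((1, 1) : ℤ × ℤ) ∈ Curves X := by
  refine ⟨⟨by norm_num, ?_⟩, ?_⟩
  · rintro p hp ⟨h, -⟩
    have h1 : ((p : ℤ)) ∣ 1 := (dvd_pow_self (p : ℤ) (by norm_num)).trans h
    have h2 : p ∣ 1 := by exact_mod_cast h1
    exact hp.one_lt.ne' (Nat.dvd_one.1 h2)
  · have : height ((1, 1) : ℤ × ℤ) = 27 := by
      simp [height]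
    rw [this]
    exact_mod_cast hX

/-- Let `F / ℚ` be a Galois extension of degree `2 ^ n`, `n ≥ 1`, in which `2` is unramified
(that is, no prime ideal `𝔭` of `F` has `2 ∈ 𝔭 ^ 2`) and not inert (that is, the ideal `(2)` is not
prime). There is `c > 0` such that for all large `X` at least `c` times the number of all elliptic curves
`E` over `ℚ` of height at most `X` satisfy the parity conjecture over `F`, `(-1) ^ rk E(F) = w(E / F)`,
with `E(F) = 0` and `w(E / F) = 1`. -/
theorem result (F : Type) [Field F] [NumberField F] [IsGalois ℚ F] (n : ℕ) (h1 : 1 ≤ n)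
    (hn : Module.finrank ℚ F = 2 ^ n)
    (h2 : ∀ 𝔭 : Ideal (𝓞 F), 𝔭.IsPrime → (2 : 𝓞 F) ∉ 𝔭 ^ 2)
    (h3 : ¬ (Ideal.span {(2 : 𝓞 F)}).IsPrime) :
    (∀ X : ℕ, (Curves X).Finite) ∧
    ∃ c : ℝ, 0 < c ∧ ∀ᶠ X : ℕ in atTop,
      0 < (Curves X).ncard ∧
      c * ((Curves X).ncard : ℝ) ≤ (({p ∈ Curves X | ParityHolds F p}).ncard : ℝ) := by
  have hset : ∀ X : ℕ, Curves X = {p : ℤ × ℤ | Pool.Agent.N922.PQ.Crv X p.1 p.2} := by
    intro X
    ext p
    exact (crv_iff X p).symm
  have hfin : ∀ X : ℕ, (Curves X).Finite := fun X => by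
    rw [hset]
    exact Pool.Agent.N922.PQ.crv_fin X
  refine ⟨hfin, ?_⟩
  obtain ⟨c, hc, X₀, h⟩ := Pool.Agent.N922.PX.final F hn h1 h2 h3
  refine ⟨c, hc, ?_⟩
  filter_upwards [eventually_ge_atTop (max X₀ 27)] with X hX
  refine ⟨(Set.ncard_pos (hfin X)).2 ⟨_, nonempty ((le_max_right _ _).trans hX)⟩, ?_⟩
  have h4 := (h X ((le_max_left _ _).trans hX)).2
  rw [← hset] at h4
  refine h4.trans ?_
  have h5 : {p : ℤ × ℤ | Pool.Agent.N922.PQ.Crv X p.1 p.2 ∧
      (Pool.Agent.N922.PQ.GoodV (M := F) (𝓞 F) p ∧
        ∀ w : HeightOneSpectrum (𝓞 F) → ℤ,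
          Pool.Agent.N922.PX.LocalRootNumbers F (Pool.Agent.N922.PX.curve p) w →
          Pool.Agent.N922.PX.rootNumber F w = 1)} ⊆ {p ∈ Curves X | ParityHolds F p} := by
    rintro p ⟨hp, ⟨-, hd, -⟩, hw⟩
    refine ⟨(crv_iff X p).1 hp, ?_⟩
    have e : (Pool.Agent.N874.PP.sW (p.1 : F) (p.2 : F)).baseChange F =
        (curve p).baseChange F := by
      apply WeierstrassCurve.ext <;>
        simp [Pool.Agent.N874.PP.sW, curve, WeierstrassCurve.baseChange]
    have key : ∀ W : WeierstrassCurve F,
        (Pool.Agent.N874.PP.sW (p.1 : F) (p.2 : F)).baseChange F = W →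
        Subsingleton W.toAffine.Point := by
      rintro W rfl
      exact hd
    have k1 : Subsingleton (Pts F p) := key _ e
    have k2 : rank F p = 0 := Module.finrank_zero_of_subsingleton
    have k3 : ∀ w, LocalRootNumbers F (curve p) w → rootNumber F w = 1 := fun w h6 =>
      hw w ((local_iff p w).1 h6)
    have k4 : ∀ w, LocalRootNumbers F (curve p) w → {v | w v ≠ 1}.Finite := by
      intro w h6
      have hc : (2 * (4 * p.1 ^ 3 + 27 * p.2 ^ 2) : ℤ) ≠ 0 :=
        mul_ne_zero two_ne_zero ((crv_iff X p).1 hp).1.elliptic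
      obtain ⟨r1, r2, -⟩ := Pool.Agent.N878.PX.t_rd F
      refine (r2 _ hc).subset fun v hv h7 => hv ?_
      exact h6.good v ((good_iff v _).2 (r1 p v h7))
    obtain ⟨w, hw'⟩ := Pool.Agent.N922.PX.exists_local F (Pool.Agent.N922.PX.curve p)
    refine ⟨k1, ⟨w, (local_iff p w).2 hw'⟩, k4, k3, fun w h6 => ?_⟩
    rw [k2, pow_zero, k3 w h6]
  exact Nat.cast_le.2 (Set.ncard_le_ncard h5 ((hfin X).subset fun p hp => hp.1))

end Pool.Agent.Results.MP_02f36d_nt.ParityOverTwoExtensions
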