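import Pool.Agent.N19.BR.Par

/-!
# The parity conjecture for semistable elliptic curves over number fields: a product formula over fields
with `2`-hyperelementary Galois action and large odd local degrees

`K` is a number field, `L` a finite Galois extension of `K` and `S` a finite set of primes of `K`.

The proof.  There is a relation `∑ e_j [F_j] = m [K]` between the permutation characters of finite
extensions `F_j` of `K` with the properties below, with an odd integer `m` (`Pool.Agent.N19.BR`: Brauer
induction with denominators prime to `2`, refined by the relations for the splitting fields of the
polynomials `(X^ℓ - a) h`, `ℓ` odd, `a` a uniformizer at the primes in `S` and `h` of degree `ℓ` and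
irreducible modulo these primes).  It gives the relation `∑ e_j rk E(F_j) = m rk E(K)`.  The same relation
is proved for the numbers of archimedean places and of the primes of split multiplicative reduction of a
semistable curve, ramified primes included: for every prime `v` of `K` and every function `g`,
`∑ e_j ∑_{w | v} g(f(w|v)) = m g(1)`, by counting the homomorphisms of the rings of integers to finite
fields.  The terms with even `e_j` do not contribute to the parity.

The definitions are in `Pool.Agent.N19.BR.PDefs`, `FDefs` and `Defs`; a `Pool.Agent.R433.MD.Ext K` is a
number field with the structure of a `K`-algebra.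
-/

set_option autoImplicit false

namespace Pool.Agent.Results.MP_02f36d_nt.SemistableParityFormula

open NumberField IsDedekindDomain
open Pool.Agent.R433.MD (Ext)
open Pool.Agent.N19.BR.FDef

/-- **Parity of ranks of semistable elliptic curves.**  Let `L/K` be a finite Galois extension of number
fields, `S` a finite set of primes of `K` and `n` an odd positive integer.  There is a finite list of number
fields `F_j ⊇ K` such that the Galois groups of `L F_j / F_j` are `2`-hyperelementary and `n` divides the
local degrees of all `F_j / K` at the primes above `S`, and a set `J` of indices, such that for ALL
semistable elliptic curves `E` over `K`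

`(-1)^{rk E(K)} w(E / K) = ∏_{j ∈ J} (-1)^{rk E(F_j)} w(E / F_j)`;

in particular, if the parity conjecture holds for `E` over all `F_j`, then it holds for `E` over `K`. -/
theorem result (K : Type) [Field K] [NumberField K] (L : Type) [Field L] [NumberField L]
    [Algebra K L] [IsGalois K L] (S : Set (HeightOneSpectrum (𝓞 K))) (hS : S.Finite) (n : ℕ)
    (hn : Odd n) :
    ∃ (N : ℕ) (Z : Fin N → Ext K) (J : Finset (Fin N)), (∀ j, TwoClass L S n (Z j)) ∧
      ∀ E : WeierstrassCurve K, E.IsElliptic → Semistable E → ParityFormula E Z J ∧
        ((∀ j, Parity (E.map (algebraMap K (Z j).F))) → Parity E) := by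
  classical
  obtain ⟨N, Z, e, m, hm, hrel, hZ⟩ := Pool.Agent.N19.BR.list_two K L hS hn
  refine ⟨N, Z, Finset.univ.filter fun i => Odd (e i), hZ, fun E hE hs => ?_⟩
  have h := Pool.Agent.N19.BR.parity_ranks hm hrel hE hs
  have h' : ParityFormula E Z (Finset.univ.filter fun i => Odd (e i)) := by
    convert h
  exact ⟨h', Pool.Agent.N19.BR.parity_of_formula h' hE⟩

end Pool.Agent.Results.MP_02f36d_nt.SemistableParityFormula
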