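import Mathlib
import Pool.Agent.N922.PK

/-!
# The growth of rank and `Ш[2^∞]` in the fields of odd degree is the rank of the units

`a`, `c` are integers with `a = 1` modulo `4` and `c ≠ 0`, and `E : y² = x³ - 2a x² + (a² - 64c) x`, the
quotient of `y² + xy = x³ + ((a - 1)/4) x² + c x` by the point `(0, 0)`.  `K` is a number field of odd degree,
with any signature `(r₁, r₂)` and any class group.  Then `Ш(E/K)[2^∞] ≃ Ш(E/ℚ)[2^∞] × N`, and up to
the 2-torsion of the class group and to the primes of `K` above the bad primes of `E`,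
`rank E(K) + dim N[2] = rank E(ℚ) + r₁ + r₂ - 1`, if `c < 0` or if `a > 0` and `64c < a²`
(and `= rank E(ℚ) + r₂` in the other case, with the narrow class group).

The proof: restriction and corestriction split off `Ш(E/ℚ)[2^∞]`.  For the classes (and points) with trivial
corestriction (trace) the descent by the isogeny of degree two and its dual is carried out with the groups
`V` of the classes in `Kˣ` modulo squares that are everywhere unramified, and `S` of the classes with even
valuations and square norm.  The elements of `S` are proved to be everywhere locally trivial in `E`, and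
`S` has order `2 ^ (r₁ + r₂ - 1) * #Cl(K)[2]`, while `V` has order at most `#Cl(K)[2]`.
-/

set_option autoImplicit false

namespace Pool.Agent.Results.MP_02f36d_nt.UnitRankGrowth

open NumberField IsDedekindDomain

open Pool.Agent.Y682 (NCl)

/-- The curve `y² = x³ - 2a x² + (a² - 64c) x`. -/
def E (a c : ℤ) (k : Type) [Field k] : WeierstrassCurve k :=
  ⟨0, ((-2 * a : ℤ) : k), 0, ((a ^ 2 - 64 * c : ℤ) : k), 0⟩

/-- The 2-primary part of the Tate-Shafarevich group of `E a c` over `K`. -/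
noncomputable abbrev ShaTwo (a c : ℤ) (K : Type) [Field K] [NumberField K] :
    AddSubgroup (Pool.Agent.TH841.NF.D.Sha (E a c K)) :=
  AddCommGroup.primaryComponent (Pool.Agent.TH841.NF.D.Sha (E a c K)) 2

/-- The 2-primary part of the Tate-Shafarevich group of `E a c` over the rationals. -/
noncomputable abbrev ShaTwoQ (a c : ℤ) : AddSubgroup (Pool.Agent.TH841.SH.D.Sha (E a c ℚ)) :=
  AddCommGroup.primaryComponent (Pool.Agent.TH841.SH.D.Sha (E a c ℚ)) 2

/-- The rank of `E a c` over `K`. -/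
noncomputable def rank (a c : ℤ) (K : Type) [Field K] [NumberField K] : ℕ :=
  Pool.Agent.TH841.NF.D.rk (E a c K)

/-- The rank of `E a c` over the rationals. -/
noncomputable def rankQ (a c : ℤ) : ℕ := Pool.Agent.TH841.SH.D.rk (E a c ℚ)

/-- `v` is the only prime of `K` above its prime number. -/
def Alone {K : Type} [Field K] [NumberField K] (v : HeightOneSpectrum (𝓞 K)) : Prop :=
  ∃ p : ℕ, p.Prime ∧ (p : 𝓞 K) ∈ v.asIdeal ∧
    ∀ w : HeightOneSpectrum (𝓞 K), (p : 𝓞 K) ∈ w.asIdeal → w = v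

/-- The number of the primes of `K` that divide the (nonzero) integer `m` and are not alone above their
prime number. -/
noncomputable def excess (K : Type) [Field K] [NumberField K] (m : ℤ) : ℕ :=
  Nat.card {v : HeightOneSpectrum (𝓞 K) | (m : 𝓞 K) ∈ v.asIdeal ∧ ¬ Alone v}

/-- The order of the 2-torsion of the class group of `K`. -/
noncomputable def clTwo (K : Type) [Field K] [NumberField K] : ℕ :=
  Nat.card {g : ClassGroup (𝓞 K) // g ^ 2 = 1}

/-- The order of the 2-torsion of the narrow class group of `K`. -/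
noncomputable def nclTwo (K : Type) [Field K] [NumberField K] : ℕ :=
  Nat.card {g : NCl K // g ^ 2 = 1}

/-- The subgroup `N` of `Ш(E/K)` is a complement of `Ш(E/ℚ)[2^∞]` in `Ш(E/K)[2^∞]`: its elements have order a
power of two, `N[2]` is finite, and `Ш(E/K)[2^∞] ≃ Ш(E/ℚ)[2^∞] × N`. -/
def Complement (K : Type) [Field K] [NumberField K] (a c : ℤ)
    (N : AddSubgroup (Pool.Agent.TH841.NF.D.Sha (E a c K))) : Prop :=
  (∀ x ∈ N, ∃ m : ℕ, 2 ^ m • x = 0) ∧ Finite {x : N // 2 • x = 0} ∧
    Nonempty (ShaTwo a c K ≃+ ShaTwoQ a c × N)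

/-- The order of the 2-torsion of a group. -/
noncomputable def two (G : Type) [AddCommGroup G] : ℕ := Nat.card {x : G // 2 • x = 0}

/-- There is a complement `N` of `Ш(E/ℚ)[2^∞]` in `Ш(E/K)[2^∞]` such that, with `t` and `s` the numbers
of the primes of `K` dividing `a² - 64c` and `c` that are not alone above their prime number,
`2 ^ (rank E(ℚ) + u) * h ≤ 2 ^ (rank E(K) + t) * #N[2]` and
`2 ^ rank E(K) * #N[2] ≤ 2 ^ (rank E(ℚ) + u + t + s) * h²`. -/
def Growth (K : Type) [Field K] [NumberField K] (a c : ℤ) (u h : ℕ) : Prop :=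
  ∃ N, Complement K a c N ∧
    2 ^ (rankQ a c + u) * h ≤ 2 ^ (rank a c K + excess K (a ^ 2 - 64 * c)) * two N ∧
    2 ^ rank a c K * two N ≤
      2 ^ (rankQ a c + u + excess K (a ^ 2 - 64 * c) + excess K c) * h ^ 2

/-- There are a complement `N` of `Ш(E/ℚ)[2^∞]` in `Ш(E/K)[2^∞]` and an integer `d ≥ 0` such that
`#N[2] = 2 ^ d` and `rank E(K) + d = rank E(ℚ) + u`; and if `d = 0`, then `N = 0`. -/
def Exact (K : Type) [Field K] [NumberField K] (a c : ℤ) (u : ℕ) : Prop :=
  ∃ N, Complement K a c N ∧ ∃ d : ℕ, two N = 2 ^ d ∧ rank a c K + d = rankQ a c + u ∧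
    (d = 0 → N = ⊥)

/-- The first type of curves: `c < 0`, or `a > 0` and `64c < a²`. -/
def TypeI (a c : ℤ) : Prop := c < 0 ∨ (0 < a ∧ 64 * c < a ^ 2)

/-- The second type of curves: `c > 0`, and `a < 0` or `a² < 64c`. -/
def TypeII (a c : ℤ) : Prop := 0 < c ∧ (a < 0 ∨ a ^ 2 < 64 * c)

/-- There is only one prime of `K` above `p`. -/
def OneAbove (K : Type) [Field K] [NumberField K] (p : ℕ) : Prop :=
  ∀ v w : HeightOneSpectrum (𝓞 K), (p : 𝓞 K) ∈ v.asIdeal → (p : 𝓞 K) ∈ w.asIdeal → v = w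

lemma excess_zero {K : Type} [Field K] [NumberField K] {m : ℤ} (hm : m ≠ 0)
    (h : ∀ p : ℕ, p.Prime → (p : ℤ) ∣ m → OneAbove K p) : excess K m = 0 := by
  have : IsEmpty {v : HeightOneSpectrum (𝓞 K) | (m : 𝓞 K) ∈ v.asIdeal ∧ ¬ Alone v} := by
    refine ⟨fun ⟨v, hv, hA⟩ => hA ?_⟩
    have h1 : v.valuation K (m : K) ≠ 1 := by
      rw [← map_intCast (algebraMap (𝓞 K) K)]
      intro h2
      exact (HeightOneSpectrum.valuation_eq_one_iff_notMem v).1 h2 hv
    obtain ⟨p, hp, hpm, hpv⟩ := Pool.Agent.Y682.exists_prime v m hm h1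
    exact ⟨p, hp, hpv, fun w hw => h p hp hpm w v hw hpv⟩
  exact Nat.card_of_isEmpty

lemma of_con {K : Type} [Field K] [NumberField K] {a c : ℤ} {u h : ℕ}
    (H : Pool.Agent.N922.Con3 K (-2 * a) (a ^ 2 - 64 * c) u h
      (Nat.card (Pool.Agent.N922.XS K (a ^ 2 - 64 * c))) (Nat.card (Pool.Agent.N922.XS K c))) :
    Growth K a c u h := by
  obtain ⟨N, hN, hf, hl, hu, hiso⟩ := H
  exact ⟨N, ⟨hN, hf, hiso⟩, hl, hu⟩

/-- the general result -/
theorem general {a c : ℤ} (ha : a % 4 = 1) (hc : c ≠ 0) (K : Type) [Field K] [NumberField K]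
    (hodd : Odd (Module.finrank ℚ K)) :
    (TypeI a c → Growth K a c (Units.rank K) (clTwo K)) ∧
    (TypeII a c → Growth K a c (InfinitePlace.nrComplexPlaces K) (nclTwo K)) :=
  ⟨fun h => of_con (@Pool.Agent.N922.mainI K _ _ DivisionRing.toRatAlgebra a c ha hc h hodd),
    fun h => of_con (@Pool.Agent.N922.mainII K _ _ DivisionRing.toRatAlgebra a c ha h.1 h.2 hodd)⟩

lemma two_pow_of {r q n : ℕ} (h : 2 ^ r * n = 2 ^ q) : ∃ d, n = 2 ^ d ∧ r + d = q := by
  obtain ⟨d, -, hd⟩ := (Nat.dvd_prime_pow Nat.prime_two).1 (Dvd.intro_left _ h)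
  refine ⟨d, hd, ?_⟩
  rw [hd, ← pow_add] at h
  exact Nat.pow_right_injective le_rfl h

lemma exact_of {K : Type} [Field K] [NumberField K] {a c : ℤ} {u : ℕ} (h : Growth K a c u 1)
    (h1 : excess K (a ^ 2 - 64 * c) = 0) (h2 : excess K c = 0) : Exact K a c u := by
  obtain ⟨N, ⟨hN, hf, hiso⟩, hl, hu⟩ := h
  rw [h1] at hl hu
  rw [h2] at hu
  simp only [add_zero, mul_one, one_pow] at hl hu
  obtain ⟨d, hd, hr⟩ := two_pow_of (le_antisymm hu hl)
  refine ⟨N, ⟨hN, hf, hiso⟩, d, hd, hr, fun h0 => (AddSubgroup.eq_bot_iff_forall N).2 fun x hx => ?_⟩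
  have hd' : Nat.card {x : N // 2 • x = 0} = 2 ^ d := hd
  have h3 := Pool.Agent.N922.trivial_of_two (G := N) (fun y => by
    obtain ⟨m, hm⟩ := hN y.1 y.2
    exact ⟨m, Subtype.ext hm⟩) hf (by rw [hd', h0, pow_zero]) ⟨x, hx⟩
  exact congrArg Subtype.val h3

lemma card_tors_odd {G : Type} [CommGroup G] (h : Odd (Nat.card G)) :
    Nat.card {g : G // g ^ 2 = 1} = 1 := by
  have : Finite G := Nat.finite_of_card_ne_zero h.pos.ne'
  rw [Nat.card_eq_one_iff_unique]
  refine ⟨⟨fun x y => ?_⟩, ⟨⟨1, one_pow 2⟩⟩⟩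
  have hz : ∀ x : {g : G // g ^ 2 = 1}, x.1 = 1 := by
    intro x
    have h1 : orderOf x.1 ∣ 2 := orderOf_dvd_of_pow_eq_one x.2
    have h2 : orderOf x.1 ∣ Nat.card G := orderOf_dvd_natCard x.1
    have h3 : orderOf x.1 ∣ 1 := by
      have := Nat.dvd_gcd h1 h2
      rwa [(Nat.coprime_two_left.2 h : Nat.gcd 2 (Nat.card G) = 1)] at this
    exact orderOf_eq_one_iff.1 (Nat.dvd_one.1 h3)
  exact Subtype.ext ((hz x).trans (hz y).symm)

/-- **Theorem.**  Let `a`, `c` be integers with `a = 1` modulo `4` and `c ≠ 0`, and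
`E : y² = x³ - 2a x² + (a² - 64c) x`.
(1) For every number field `K` of odd degree, with `r₁` real and `r₂` complex places, there is a
group `N` with `Ш(E/K)[2^∞] ≃ Ш(E/ℚ)[2^∞] × N` and, with `t` and `s` the numbers of the primes of `K`
dividing `a² - 64c` and `c` that are not the only ones above their prime number, and `u = r₁ + r₂ - 1`,
`h = #Cl(K)[2]` if `E` is of the first type, `u = r₂`, `h = #Cl⁺(K)[2]` if `E` is of the second type,
`2 ^ (rank E(ℚ) + u) * h ≤ 2 ^ (rank E(K) + t) * #N[2]` and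
`2 ^ rank E(K) * #N[2] ≤ 2 ^ (rank E(ℚ) + u + t + s) * h²`.
(2) If there is only one prime of `K` above each prime factor of `c (a² - 64c)`, and the class number (in the
second type: the narrow class number) of `K` is odd, then `#N[2] = 2 ^ d` with
`rank E(K) + d = rank E(ℚ) + u`, and `N = 0` if `d = 0`. -/
theorem result :
    (∀ a c : ℤ, a % 4 = 1 → c ≠ 0 → ∀ (K : Type) [Field K] [NumberField K],
      Odd (Module.finrank ℚ K) →
      (TypeI a c → Growth K a c (Units.rank K) (clTwo K)) ∧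
      (TypeII a c → Growth K a c (InfinitePlace.nrComplexPlaces K) (nclTwo K))) ∧
    (∀ a c : ℤ, a % 4 = 1 → c ≠ 0 → ∀ (K : Type) [Field K] [NumberField K],
      Odd (Module.finrank ℚ K) →
      (∀ p : ℕ, p.Prime → (p : ℤ) ∣ c * (a ^ 2 - 64 * c) → OneAbove K p) →
      (TypeI a c → Odd (classNumber K) → Exact K a c (Units.rank K)) ∧
      (TypeII a c → Odd (Nat.card (NCl K)) → Exact K a c (InfinitePlace.nrComplexPlaces K))) := by
  refine ⟨fun a c ha hc K _ _ hodd => general ha hc K hodd, fun a c ha hc K _ _ hodd hbad => ?_⟩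
  · have hD : a ^ 2 - 64 * c ≠ 0 := sub_ne_zero.2 (Pool.Agent.N922.D_ne ha)
    have h1 : excess K (a ^ 2 - 64 * c) = 0 :=
      excess_zero hD fun p hp h => hbad p hp (h.mul_left _)
    have h2 : excess K c = 0 := excess_zero hc fun p hp h => hbad p hp (h.mul_right _)
    obtain ⟨g1, g2⟩ := general ha hc K hodd
    refine ⟨fun hI hcl => ?_, fun hII hcl => ?_⟩
    · have h3 : clTwo K = 1 := by
        apply card_tors_odd
        rw [Nat.card_eq_fintype_card]
        exact hcl
      have h4 := g1 hI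
      rw [h3] at h4
      exact exact_of h4 h1 h2
    · have h3 : nclTwo K = 1 := card_tors_odd hcl
      have h4 := g2 hII
      rw [h3] at h4
      exact exact_of h4 h1 h2

end Pool.Agent.Results.MP_02f36d_nt.UnitRankGrowth
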